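import Pool.Agent.Lib.CF4.All

/-!
# The Hasse principle for a class of smooth cubic fourfolds
-/

set_option autoImplicit false

namespace Pool.Agent.Results.MP_deef10_nt.CubicFourfolds

open MvPolynomial

/-- The cubic form `g₀ C(x) + 3 g₁ c(x, x, y) + 3 g₂ c(x, y, y) + g₃ C(y)` in the six variables
`x₀, x₁, x₂, y₀, y₁, y₂`, where `c(x, y, z) = ∑ c i j l * x i * y j * z l` and `C(x) = c(x, x, x)`. -/
noncomputable def gC {k : Type} [Field k] (g : Fin 4 → k) (c : Fin 3 → Fin 3 → Fin 3 → k) :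
    MvPolynomial (Fin (3 + 3)) k :=
  ∑ i : Fin 3, ∑ j : Fin 3, ∑ l : Fin 3, C (c i j l) *
    (C (g 0) * (X (Fin.castAdd 3 i) * X (Fin.castAdd 3 j) * X (Fin.castAdd 3 l)) +
      3 * C (g 1) * (X (Fin.castAdd 3 i) * X (Fin.castAdd 3 j) * X (Fin.natAdd 3 l)) +
      3 * C (g 2) * (X (Fin.castAdd 3 i) * X (Fin.natAdd 3 j) * X (Fin.natAdd 3 l)) +
      C (g 3) * (X (Fin.natAdd 3 i) * X (Fin.natAdd 3 j) * X (Fin.natAdd 3 l)))

theorem gC_eq {k : Type} [Field k] (g : Fin 4 → k) (c : Fin 3 → Fin 3 → Fin 3 → k) :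
    gC g c = Pool.Agent.CF4.XF g c := by
  have h1 : ∀ i : Fin 3, Pool.Agent.CF4.fst3 (X : Fin 6 → MvPolynomial (Fin 6) k) i =
      X (Fin.castAdd 3 i) := by
    intro i
    fin_cases i <;> rfl
  have h2 : ∀ i : Fin 3, Pool.Agent.CF4.lst3 (X : Fin 6 → MvPolynomial (Fin 6) k) i =
      X (Fin.natAdd 3 i) := by
    intro i
    fin_cases i <;> rfl
  simp only [gC, Pool.Agent.CF4.XF, Pool.Agent.CF4.FG, Pool.Agent.CF4.tri, Pool.Agent.CF4.mp, h1, h2,
    Finset.mul_sum, ← Finset.sum_add_distrib]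
  refine Finset.sum_congr rfl fun i _ => Finset.sum_congr rfl fun j _ =>
    Finset.sum_congr rfl fun l _ => ?_
  ring

/-- Let `k` be a number field, `C` a ternary cubic form over `k` with the symmetric coefficient
tensor `c`, and `g` a binary cubic form over `k` with the coefficients `g₀, 3 g₁, 3 g₂, g₃`. If the
cubic fourfold `F = g₀ C(x) + 3 g₁ c(x, x, y) + 3 g₂ c(x, y, y) + g₃ C(y) = 0` in `ℙ⁵` is smooth and has
a point over the completion of `k` at every finite place, then it has a point over `k`. -/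
theorem result (k : Type) [Field k] [NumberField k] (g : Fin 4 → k)
    (c : Fin 3 → Fin 3 → Fin 3 → k) (hc : ∀ i j l, c i j l = c j i l ∧ c i j l = c i l j)
    (hsm : ∀ z : Fin (3 + 3) → AlgebraicClosure k,
      eval₂ (algebraMap k (AlgebraicClosure k)) z (gC g c) = 0 →
      (∀ i : Fin (3 + 3),
        eval₂ (algebraMap k (AlgebraicClosure k)) z (pderiv i (gC g c)) = 0) → z = 0)
    (hloc : ∀ v : IsDedekindDomain.HeightOneSpectrum (NumberField.RingOfIntegers k),
      ∃ z : Fin (3 + 3) → v.adicCompletion k, z ≠ 0 ∧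
        eval₂ (algebraMap k (v.adicCompletion k)) z (gC g c) = 0) :
    ∃ z : Fin (3 + 3) → k, z ≠ 0 ∧ eval z (gC g c) = 0 := by
  rw [gC_eq] at hsm hloc ⊢
  exact Pool.Agent.CF4.qFinal k g c hc hsm hloc

end Pool.Agent.Results.MP_deef10_nt.CubicFourfolds
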